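import Mathlib

/-! Integral domains with common division are not singled out among commutative rings with common
division by conditional equations: `ℚ⟦X⟧ ×_ℚ ℚ⟦X⟧` satisfies all those valid in domains. -/

namespace Pool.Agent.Results.MP_faa006_lc.NotDefinable

/-- Terms over the signature `0, 1, ⊥, -, +, ·, ÷`. -/
inductive Tm
  | var (i : ℕ)
  | zero
  | one
  | bot
  | neg (s : Tm)
  | add (s t : Tm)
  | mul (s t : Tm)
  | div (s t : Tm)

variable {R D : Type} [CommRing R] [CommRing D]

/-- Multiplication of `Enl(R)`; `none` is `⊥`. -/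
def omul (x y : Option R) : Option R := x.bind fun a => y.map fun b => a * b

def oadd (x y : Option R) : Option R := x.bind fun a => y.map fun b => a + b

open Classical in
/-- Inverse based common division. -/
noncomputable def odiv (x y : Option R) : Option R :=
  x.bind fun a => y.bind fun b => if IsUnit b then some (a * Ring.inverse b) else none

/-- Value of a term in `Enl(R)`. -/
noncomputable def ev (v : ℕ → Option R) : Tm → Option R
  | .var i => v i
  | .zero => some 0
  | .one => some 1
  | .bot => none
  | .neg s => (ev v s).map fun a => -a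
  | .add s t => oadd (ev v s) (ev v t)
  | .mul s t => omul (ev v s) (ev v t)
  | .div s t => odiv (ev v s) (ev v t)

/-- A conditional equation: a list of premises and a conclusion. -/
abbrev CEq := List (Tm × Tm) × (Tm × Tm)

def Sat (R : Type) [CommRing R] (φ : CEq) : Prop :=
  ∀ v : ℕ → Option R, (∀ e ∈ φ.1, ev v e.1 = ev v e.2) → ev v φ.2.1 = ev v φ.2.2

/-- An isomorphism `Enl(R) ≅ Enl(D)`. -/
def IsIso (e : Option R ≃ Option D) : Prop :=
  e (some 0) = some 0 ∧ e (some 1) = some 1 ∧ e none = none ∧
  (∀ x, e (x.map fun a => -a) = (e x).map fun a => -a) ∧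
  (∀ x y, e (oadd x y) = oadd (e x) (e y)) ∧ (∀ x y, e (omul x y) = omul (e x) (e y)) ∧
  ∀ x y, e (odiv x y) = odiv (e x) (e y)

lemma ev_map (h : R →+* D) (hu : ∀ b, IsUnit (h b) → IsUnit b) (v : ℕ → Option R) (t : Tm) :
    ev (fun i => (v i).map h) t = (ev v t).map h := by
  induction t with
  | var i => rfl
  | zero => simp [ev]
  | one => simp [ev]
  | bot => rfl
  | neg s ih => simp only [ev, ih]; cases ev v s <;> simp
  | add s t ih1 ih2 => simp only [ev, ih1, ih2]; cases ev v s <;> cases ev v t <;> simp [oadd]
  | mul s t ih1 ih2 => simp only [ev, ih1, ih2]; cases ev v s <;> cases ev v t <;> simp [omul]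
  | div s t ih1 ih2 =>
    simp only [ev, ih1, ih2]
    cases ev v s with
    | none => rfl
    | some a =>
    cases ev v t with
    | none => rfl
    | some b =>
      by_cases hb : IsUnit b
      · obtain ⟨u, rfl⟩ := hb
        have : Ring.inverse (h u) = h (Ring.inverse (u : R)) := by
          rw [Ring.inverse_unit]
          exact Ring.inverse_unit (Units.map (h : R →* D) u)
        simp [odiv, u.isUnit.map h, this]
      · have hb' : ¬ IsUnit (h b) := fun h' => hb (hu b h')
        simp [odiv, hb, hb']

open PowerSeries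

/-- Pairs of power series with the same constant term. -/
noncomputable def S : Subring (ℚ⟦X⟧ × ℚ⟦X⟧) :=
  RingHom.eqLocus (constantCoeff.comp (RingHom.fst _ _)) (constantCoeff.comp (RingHom.snd _ _))

lemma unit_S (b : S) (h : constantCoeff b.1.1 ≠ 0) : IsUnit b := by
  have hb : constantCoeff b.1.1 = constantCoeff b.1.2 := b.2
  refine IsUnit.of_mul_eq_one ⟨(b.1.1⁻¹, b.1.2⁻¹), ?_⟩ ?_
  · change constantCoeff b.1.1⁻¹ = constantCoeff b.1.2⁻¹
    rw [constantCoeff_inv, constantCoeff_inv, hb]
  · refine Subtype.ext (Prod.ext ?_ ?_)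
    · exact PowerSeries.mul_inv_cancel _ h
    · exact PowerSeries.mul_inv_cancel _ (hb ▸ h)

theorem result (T : Set CEq)
    (hT : ∀ φ ∈ T, ∀ (D : Type) [CommRing D] [IsDomain D], Sat D φ) :
    ∃ (R : Type) (_ : CommRing R), (∀ φ ∈ T, Sat R φ) ∧
      ∀ (D : Type) [CommRing D] [NoZeroDivisors D] (e : Option R ≃ Option D), ¬ IsIso e := by
  refine ⟨S, inferInstance, fun φ hφ v hv => ?_, fun D _ _ e he => ?_⟩
  · let h1 : S →+* ℚ⟦X⟧ := (RingHom.fst _ _).comp S.subtype
    let h2 : S →+* ℚ⟦X⟧ := (RingHom.snd _ _).comp S.subtype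
    have u1 : ∀ b, IsUnit (h1 b) → IsUnit b := fun b hb =>
      unit_S b (hb.map constantCoeff).ne_zero
    have u2 : ∀ b, IsUnit (h2 b) → IsUnit b := fun b hb =>
      unit_S b (by
        have hb' : constantCoeff b.1.1 = constantCoeff b.1.2 := b.2
        rw [hb']; exact (hb.map constantCoeff).ne_zero)
    have k1 := hT φ hφ _ (fun i => (v i).map h1) fun e he => by
      rw [ev_map h1 u1, ev_map h1 u1, hv e he]
    have k2 := hT φ hφ _ (fun i => (v i).map h2) fun e he => by
      rw [ev_map h2 u2, ev_map h2 u2, hv e he]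
    rw [ev_map h1 u1, ev_map h1 u1] at k1
    rw [ev_map h2 u2, ev_map h2 u2] at k2
    revert k1 k2
    cases ev v φ.2.1 <;> cases ev v φ.2.2 <;> simp only [Option.map_some, Option.map_none,
      Option.some.injEq, reduceCtorEq, imp_self, false_imp_iff]
    intro k1 k2
    exact Subtype.ext (Prod.ext k1 k2)
  · let a : S := ⟨(X, 0), by change constantCoeff X = constantCoeff 0; simp⟩
    let b : S := ⟨(0, X), by change constantCoeff 0 = constantCoeff X; simp⟩
    have hab : a * b = 0 := Subtype.ext (Prod.ext (by simp [a, b]) (by simp [a, b]))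
    have ha : a ≠ 0 := fun h => X_ne_zero (congrArg (fun z : S => z.1.1) h)
    have hb : b ≠ 0 := fun h => X_ne_zero (congrArg (fun z : S => z.1.2) h)
    obtain ⟨h0, -, -, -, -, hm, -⟩ := he
    have h := hm (some a) (some b)
    have e1 : omul (some a) (some b) = some 0 := by simp [omul, hab]
    rw [e1, h0] at h
    cases ha' : e (some a) with
    | none => simp [ha', omul] at h
    | some a' =>
    cases hb' : e (some b) with
    | none => simp [ha', hb', omul] at h
    | some b' =>
      have : a' * b' = 0 := by simpa [ha', hb', omul] using h.symm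
      rcases mul_eq_zero.mp this with rfl | rfl
      · exact ha (Option.some.inj (e.injective (ha'.trans h0.symm)))
      · exact hb (Option.some.inj (e.injective (hb'.trans h0.symm)))

end Pool.Agent.Results.MP_faa006_lc.NotDefinable
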